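import Mathlib

set_option autoImplicit false

namespace Pool.Agent.H.MP_74a576_co

section General

variable {V : Type} [DecidableEq V] (G : SimpleGraph V)

def St (A B : V → ℕ) : Prop := ∃ u v : V, G.Adj u v ∧ 2 ≤ A u ∧
  B = Function.update (Function.update A u (A u - 2)) v (A v + 1)

theorem st_iff (A B : V → ℕ) : St G A B ↔
    ∃ (u v : V) (X : V → ℕ), G.Adj u v ∧ A = X + Pi.single u 2 ∧ B = X + Pi.single v 1 := by
  constructor
  · rintro ⟨u, v, h, h2, rfl⟩
    have hne := h.ne
    refine ⟨u, v, Function.update A u (A u - 2), h, ?_, ?_⟩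
    · funext w
      by_cases e : w = u
      · subst e; simp; omega
      · simp [e]
    · funext w
      by_cases e : w = v
      · subst e; simp [hne.symm]
      · simp [e]
  · rintro ⟨u, v, X, h, rfl, rfl⟩
    have hne := h.ne
    refine ⟨u, v, h, by simp, ?_⟩
    funext w
    by_cases e : w = v
    · subst e; simp [hne.symm]
    · by_cases e' : w = u
      · subst e'; simp [e]
      · simp [e, e']

abbrev R (A B : V → ℕ) : Prop := Relation.ReflTransGen (St G) A B

theorem R_add {A B : V → ℕ} (h : R G A B) (X : V → ℕ) : R G (A + X) (B + X) := by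
  induction h with
  | refl => exact Relation.ReflTransGen.refl
  | tail _ hs ih =>
    refine ih.tail ?_
    obtain ⟨u, v, Y, h, rfl, rfl⟩ := (st_iff G _ _).1 hs
    exact (st_iff G _ _).2 ⟨u, v, Y + X, h, by abel, by abel⟩

theorem R_add2 {A B A' B' : V → ℕ} (h : R G A B) (h' : R G A' B') : R G (A + A') (B + B') := by
  have h1 := R_add G h A'
  have h2 := R_add G h' B
  rw [add_comm A' B, add_comm B' B] at h2
  exact h1.trans h2

theorem R_sum {ι : Type} (s : Finset ι) (A B : ι → V → ℕ) (h : ∀ k, R G (A k) (B k)) :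
    R G (∑ k ∈ s, A k) (∑ k ∈ s, B k) := by
  classical
  induction s using Finset.induction_on with
  | empty => exact Relation.ReflTransGen.refl
  | insert k s hk ih =>
    rw [Finset.sum_insert hk, Finset.sum_insert hk]
    exact R_add2 G (h k) ih

theorem move {u v : V} (h : G.Adj u v) (m : ℕ) : R G (Pi.single u (2 * m)) (Pi.single v m) := by
  induction m with
  | zero => simp only [mul_zero, Pi.single_zero]; exact Relation.ReflTransGen.refl
  | succ m ih =>
    rw [mul_add, Pi.single_add, Pi.single_add]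
    exact R_add2 G ih (Relation.ReflTransGen.single
      ((st_iff G _ _).2 ⟨u, v, 0, h, by simp, by simp⟩))

theorem path (w : ℕ → V) (d : ℕ) (h : ∀ j < d, G.Adj (w j) (w (j + 1))) (m : ℕ) :
    R G (Pi.single (w 0) (2 ^ d * m)) (Pi.single (w d) m) := by
  induction d generalizing m with
  | zero => simp only [pow_zero, one_mul]; exact Relation.ReflTransGen.refl
  | succ d ih =>
    rw [pow_succ, mul_assoc]
    exact (ih (fun j hj => h j (by omega)) (2 * m)).trans (move G (h d (by omega)) m)

theorem can {A D : V → ℕ} {r : V} {m t : ℕ} (h : R G A (Pi.single r m)) (hA : A ≤ D)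
    (ht : t ≤ m) : ∃ D', R G D D' ∧ t ≤ D' r := by
  refine ⟨Pi.single r m + (D - A), ?_, by simp; omega⟩
  have := R_add G h (D - A)
  rwa [add_tsub_cancel_of_le hA] at this

end General

section Special

variable (a p L M : ℕ)

abbrev Q := (Fin a ↪ Fin p) × Fin M

abbrev W := Fin p ⊕ Q a p M × Option (Fin a × Fin L)

variable {a p M}

def node (q : Q a p M) (k : Fin a) (j : ℕ) : W a p L M :=
  if j = 0 then Sum.inl (q.1 k) else
    if h : j - 1 < L then Sum.inr (q, some (k, ⟨j - 1, h⟩)) else Sum.inr (q, none)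

theorem node_zero (q : Q a p M) (k : Fin a) : node L q k 0 = Sum.inl (q.1 k) := by simp [node]

theorem node_top (q : Q a p M) (k : Fin a) : node L q k (L + 1) = Sum.inr (q, none) := by
  simp [node]

theorem node_mid (q : Q a p M) (k : Fin a) (j : Fin L) :
    node L q k (j + 1) = Sum.inr (q, some (k, j)) := by
  simp [node]

variable (a p M)

def G : SimpleGraph (W a p L M) :=
  SimpleGraph.fromRel (fun u v => ∃ q k j, j ≤ L ∧ u = node L q k j ∧ v = node L q k (j + 1))

variable {a p M}

def pos : W a p L M → ℕ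
  | Sum.inl _ => 0
  | Sum.inr (_, none) => L + 1
  | Sum.inr (_, some (_, j)) => j + 1

theorem pos_node (q : Q a p M) (k : Fin a) (j : ℕ) (hj : j ≤ L + 1) :
    pos L (node L q k j) = j := by
  unfold node
  split_ifs with h1 h2 <;> simp only [pos] <;> omega

theorem adj_node (q : Q a p M) (k : Fin a) (j : ℕ) (hj : j ≤ L) :
    (G a p L M).Adj (node L q k j) (node L q k (j + 1)) := by
  refine (SimpleGraph.fromRel_adj _ _ _).2 ⟨fun e => ?_, Or.inl ⟨q, k, j, hj, rfl, rfl⟩⟩
  have := congrArg (pos L) e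
  rw [pos_node L q k j (by omega), pos_node L q k (j + 1) (by omega)] at this
  omega

theorem reach_node (q : Q a p M) (k : Fin a) (j : ℕ) (hj : j ≤ L + 1) :
    (G a p L M).Reachable (Sum.inl (q.1 k)) (node L q k j) := by
  induction j with
  | zero => rw [node_zero]
  | succ j ih => exact (ih (by omega)).trans (adj_node L q k j (by omega)).reachable

theorem conn (ha : 2 ≤ a) (hp : a ≤ p) (hM : 0 < M) : (G a p L M).Connected := by
  have h0 : ∀ i : Fin p, (G a p L M).Reachable (Sum.inl ⟨0, by omega⟩) (Sum.inl i) := by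
    intro i
    by_cases hi : i = ⟨0, by omega⟩
    · rw [hi]
    let q : Q a p M :=
      ((Fin.castLEEmb hp).trans (Equiv.swap ⟨1, by omega⟩ i).toEmbedding, ⟨0, hM⟩)
    have h1 := reach_node L q ⟨0, by omega⟩ (L + 1) le_rfl
    have h2 := reach_node L q ⟨1, by omega⟩ (L + 1) le_rfl
    rw [node_top] at h1 h2
    have e1 : q.1 ⟨0, by omega⟩ = ⟨0, by omega⟩ := by
      change Equiv.swap (⟨1, by omega⟩ : Fin p) i ⟨0, by omega⟩ = _
      exact Equiv.swap_apply_of_ne_of_ne (by simp [Fin.ext_iff]) (Ne.symm hi)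
    have e2 : q.1 ⟨1, by omega⟩ = i := by
      change Equiv.swap (⟨1, by omega⟩ : Fin p) i ⟨1, by omega⟩ = _
      exact Equiv.swap_apply_left _ _
    rw [e1] at h1
    rw [e2] at h2
    exact h1.trans h2.symm
  have h : ∀ v, (G a p L M).Reachable (Sum.inl ⟨0, by omega⟩) v := by
    rintro (i | ⟨q, _ | ⟨k, j⟩⟩)
    · exact h0 i
    · rw [← node_top L q ⟨0, by omega⟩]
      exact (h0 _).trans (reach_node L q _ _ le_rfl)
    · rw [← node_mid L q k j]
      exact (h0 _).trans (reach_node L q _ _ (by omega))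
  have : Nonempty (W a p L M) := ⟨Sum.inl ⟨0, by omega⟩⟩
  exact ⟨fun x y => (h x).symm.trans (h y)⟩

def D : W a p L M → ℕ
  | Sum.inl _ => 2 ^ (L + 1)
  | Sum.inr _ => 0

theorem solv (s : ℕ) (ha : a = 2 ^ (2 * s)) (hL : s ≤ L) (r : W a p L M) :
    ∃ D', R (G a p L M) (D L) D' ∧ 2 ^ s ≤ D' r := by
  have key : ∀ (q : Q a p M) (k : Fin a) (j : ℕ), j ≤ L + 1 →
      ∃ D', R (G a p L M) (D L) D' ∧ 2 ^ s ≤ D' (node L q k j) := by
    intro q k j hj
    by_cases h : j + s ≤ L + 1
    · refine can _ (path _ (node L q k) j (fun i hi => adj_node L q k i (by omega))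
        (2 ^ (L + 1 - j))) ?_ (Nat.pow_le_pow_right (by norm_num) (by omega))
      rw [← pow_add, node_zero, show j + (L + 1 - j) = L + 1 by omega]
      intro v
      by_cases e : v = Sum.inl (q.1 k)
      · subst e; simp [D]
      · simp [e]
    · have h1 := R_sum (G a p L M) Finset.univ _ _ (fun k' : Fin a =>
        path _ (node L q k') (L + 1) (fun i hi => adj_node L q k' i (by omega)) 1)
      have h2 := path (G a p L M) (fun n => node L q k (L + 1 - n)) (L + 1 - j) (fun i hi => by
        have := (adj_node L q k (L - i) (by omega)).symm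
        rwa [show L - i + 1 = L + 1 - i by omega, show L - i = L + 1 - (i + 1) by omega] at this)
        (2 ^ (2 * s - (L + 1 - j)))
      simp only [node_top, node_zero, mul_one] at h1
      rw [← pow_add, Nat.sub_zero, node_top, show L + 1 - (L + 1 - j) = j by omega,
        show L + 1 - j + (2 * s - (L + 1 - j)) = 2 * s by omega, ← ha] at h2
      have e : (∑ _k : Fin a, Pi.single (Sum.inr (q, none) : W a p L M) 1 : W a p L M → ℕ) =
          Pi.single (Sum.inr (q, none)) a := by
        funext v
        by_cases e : v = Sum.inr (q, none)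
        · subst e; simp
        · simp [e]
      rw [e] at h1
      refine can _ (h1.trans h2) ?_ (Nat.pow_le_pow_right (by norm_num) (by omega))
      rintro (i | v)
      · rw [Finset.sum_apply]
        by_cases hi : ∃ k', q.1 k' = i
        · obtain ⟨k', rfl⟩ := hi
          rw [Finset.sum_eq_single k']
          · simp [D]
          · intro b _ hb
            simp [hb.symm]
          · simp
        · push Not at hi
          rw [Finset.sum_eq_zero]
          · exact Nat.zero_le _
          · intro b _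
            simp [(hi b).symm]
      · simp [Finset.sum_apply]
  have ha0 : 0 < a := by rw [ha]; positivity
  rcases r with i | ⟨q, _ | ⟨k, j⟩⟩
  · exact ⟨_, Relation.ReflTransGen.refl, Nat.pow_le_pow_right (by norm_num) (by omega)⟩
  · rw [← node_top L q ⟨0, ha0⟩]
    exact key _ _ _ le_rfl
  · rw [← node_mid L q k j]
    exact key _ _ _ (by omega)

def om (q0 : Q a p M) (i : Fin p) : W a p L M → ℕ
  | Sum.inl i' => if i' = i then 2 ^ (L + 1) else 1
  | Sum.inr (_, none) => 1
  | Sum.inr (q, some (k, j)) =>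
      if q.1 k = i then (if q = q0 then 2 ^ (L + 1 + (j + 1)) else 2 ^ (L + 1 - (j + 1))) else 1

theorem om_node (q0 : Q a p M) (i : Fin p) (q : Q a p M) (k : Fin a) (j : ℕ) (hj : j ≤ L) :
    om L q0 i (node L q k j) =
      if q.1 k = i then (if q = q0 then 2 ^ (L + 1 + j) else 2 ^ (L + 1 - j)) else 1 := by
  rcases j with _ | j
  · simp [node_zero, om]
  · rw [show j + 1 = ((⟨j, by omega⟩ : Fin L) : ℕ) + 1 from rfl, node_mid]
    rfl

theorem edge (q0 : Q a p M) {u v : W a p L M} (h : (G a p L M).Adj u v)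
    (hu : u ≠ Sum.inr (q0, none)) :
    (v ≠ Sum.inr (q0, none) ∧ ∀ i, om L q0 i v ≤ 2 * om L q0 i u) ∨
      ∃ k, 2 ^ (2 * L + 2) ≤ 2 * om L q0 (q0.1 k) u := by
  have hne : ∀ (q : Q a p M) (k : Fin a) (j : ℕ), j ≤ L → node L q k j ≠ Sum.inr (q0, none) := by
    intro q k j hj e
    have := congrArg (pos L) e
    rw [pos_node L q k j (by omega)] at this
    simp only [pos] at this
    omega
  have two : ∀ x y : ℕ, x ≤ y + 1 → 2 ^ x ≤ 2 * 2 ^ y := fun x y hxy => by
    rw [← pow_succ']; exact Nat.pow_le_pow_right (by norm_num) hxy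
  obtain ⟨-, ⟨q, k, j, hj, rfl, rfl⟩ | ⟨q, k, j, hj, rfl, rfl⟩⟩ :=
    (SimpleGraph.fromRel_adj _ _ _).1 h
  · rcases hj.lt_or_eq with hj' | rfl
    · refine Or.inl ⟨hne _ _ _ hj', fun i => ?_⟩
      rw [om_node L q0 i q k j hj, om_node L q0 i q k (j + 1) hj']
      split_ifs
      · exact two _ _ (by omega)
      · exact two _ _ (by omega)
      · omega
    · by_cases e : q = q0
      · subst e
        refine Or.inr ⟨k, ?_⟩
        rw [om_node j q _ q k j le_rfl, if_pos rfl, if_pos rfl]
        exact two _ _ (by omega)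
      · rw [node_top]
        refine Or.inl ⟨by simp [e], fun i => ?_⟩
        rw [om_node j q0 i q k j le_rfl]
        simp only [om]
        split_ifs
        · simp
        · omega
  · refine Or.inl ⟨hne _ _ _ hj, fun i => ?_⟩
    rcases hj.lt_or_eq with hj' | rfl
    · rw [om_node L q0 i q k j hj, om_node L q0 i q k (j + 1) hj']
      split_ifs
      · exact two _ _ (by omega)
      · exact two _ _ (by omega)
      · omega
    · rw [node_top] at hu ⊢
      have e : q ≠ q0 := by rintro rfl; exact hu rfl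
      rw [om_node j q0 i q k j le_rfl]
      simp only [om, if_neg e]
      split_ifs
      · simp
      · omega

theorem inv (q0 : Q a p M) {C C' : W a p L M → ℕ} (h : R (G a p L M) C C')
    (h0 : C (Sum.inr (q0, none)) = 0 ∧
      ∀ k, ∑ v, C v * om L q0 (q0.1 k) v < 2 ^ (2 * L + 2)) :
    C' (Sum.inr (q0, none)) = 0 ∧ ∀ k, ∑ v, C' v * om L q0 (q0.1 k) v < 2 ^ (2 * L + 2) := by
  have hs : ∀ (X : W a p L M → ℕ) (u : W a p L M) (n : ℕ) (w : W a p L M → ℕ),
      ∑ v, (X + Pi.single u n : W a p L M → ℕ) v * w v = ∑ v, X v * w v + n * w u := by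
    intro X u n w
    simp [add_mul, Finset.sum_add_distrib, Pi.single_apply]
  induction h with
  | refl => exact h0
  | tail _ hst ih =>
    obtain ⟨u, v, X, huv, rfl, rfl⟩ := (st_iff _ _ _).1 hst
    obtain ⟨i1, i2⟩ := ih
    have hu : u ≠ Sum.inr (q0, none) := by
      rintro rfl
      simp at i1
    rcases edge L q0 huv hu with ⟨hv, hw⟩ | ⟨k, hk⟩
    · refine ⟨?_, fun k => ?_⟩
      · simpa [hu.symm, hv.symm] using i1
      · have := i2 k
        have := hw (q0.1 k)
        rw [hs] at *
        omega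
    · have := i2 k
      rw [hs] at this
      omega

def owner : W a p L M → Option (Fin p)
  | Sum.inl i => some i
  | Sum.inr (_, none) => none
  | Sum.inr (q, some (k, _)) => some (q.1 k)

theorem lower (hp : p = 2 * a) (E : W a p L M → ℕ) (h1 : ∑ v, E v < M)
    (h2 : ∑ v, E v ≤ a * 2 ^ L) (h3 : ∑ v, E v < 2 ^ (2 * L + 1)) :
    ∃ r, ∀ E', R (G a p L M) E E' → E' r = 0 := by
  classical
  let T : Fin p → ℕ := fun i => ∑ v, if owner L v = some i then E v else 0
  have hT : ∑ i, T i ≤ ∑ v, E v := by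
    simp only [T]
    rw [Finset.sum_comm]
    refine Finset.sum_le_sum fun v _ => ?_
    rcases owner L v with _ | i <;> simp
  have hrich : (Finset.univ.filter (fun i => 2 ^ L ≤ T i)).card ≤ a := by
    have e1 := Finset.card_nsmul_le_sum (Finset.univ.filter (fun i => 2 ^ L ≤ T i)) T (2 ^ L)
      (fun i hi => (Finset.mem_filter.1 hi).2)
    have e2 := Finset.sum_le_sum_of_subset (f := T)
      (Finset.subset_univ (Finset.univ.filter (fun i => 2 ^ L ≤ T i)))
    rw [smul_eq_mul] at e1
    exact Nat.le_of_mul_le_mul_right (e1.trans (e2.trans (hT.trans h2))) (by positivity)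
  have hpoor : Fintype.card (Fin a) ≤ (Finset.univ.filter (fun i => ¬ 2 ^ L ≤ T i)).card := by
    have := Finset.card_filter_add_card_filter_not (s := Finset.univ) (fun i => 2 ^ L ≤ T i)
    rw [Finset.card_univ, Fintype.card_fin] at this
    rw [Fintype.card_fin]
    omega
  obtain ⟨f, hf⟩ := Function.Embedding.exists_of_card_le_finset hpoor
  have hf' : ∀ k, T (f k) < 2 ^ L := fun k => by
    have := hf ⟨k, rfl⟩
    simpa using this
  obtain ⟨m, hm⟩ : ∃ m : Fin M, ∀ o, E (Sum.inr ((f, m), o)) = 0 := by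
    by_contra hc
    push Not at hc
    choose o ho using hc
    have hinj : Function.Injective (fun m : Fin M => (Sum.inr ((f, m), o m) : W a p L M)) := by
      intro m m' e
      simp only [Sum.inr.injEq, Prod.mk.injEq] at e
      exact e.1.2
    have e1 := Finset.sum_le_sum_of_subset (f := E) (Finset.subset_univ
      (Finset.univ.image (fun m : Fin M => (Sum.inr ((f, m), o m) : W a p L M))))
    rw [Finset.sum_image (fun x _ y _ e => hinj e)] at e1
    have e2 := Finset.card_nsmul_le_sum Finset.univ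
      (fun m : Fin M => E (Sum.inr ((f, m), o m))) 1 (fun m _ => Nat.pos_of_ne_zero (ho m))
    rw [Finset.card_univ, Fintype.card_fin, smul_eq_mul] at e2
    omega
  refine ⟨Sum.inr ((f, m), none), fun E' h => (inv L (f, m) h ⟨hm _, fun k => ?_⟩).1⟩
  have b : ∑ v, E v * om L (f, m) (f k) v ≤ ∑ v, E v + 2 ^ (L + 1) * T (f k) := by
    simp only [T]
    rw [Finset.mul_sum, ← Finset.sum_add_distrib]
    refine Finset.sum_le_sum ?_
    rintro (i | ⟨q, _ | ⟨k', j⟩⟩) -
    · simp only [om, owner, Option.some.injEq]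
      split_ifs
      · rw [mul_comm]; omega
      · omega
    · simp [om]
    · simp only [om, owner, Option.some.injEq]
      split_ifs with c1 c2
      · rw [c2, hm]; simp
      · have : 2 ^ (L + 1 - (j + 1)) ≤ 2 ^ (L + 1) := Nat.pow_le_pow_right (by norm_num) (by omega)
        have := Nat.mul_le_mul_left (E (Sum.inr (q, some (k', j)))) this
        rw [mul_comm (2 ^ (L + 1))]; omega
      · omega
  have b2 : 2 ^ (L + 1) * T (f k) ≤ 2 ^ (2 * L + 1) := by
    rw [show 2 * L + 1 = (L + 1) + L by omega, pow_add 2 (L + 1) L]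
    exact Nat.mul_le_mul_left _ (hf' k).le
  have b3 : 2 ^ (2 * L + 2) = 2 * 2 ^ (2 * L + 1) := by ring
  simp only
  omega

theorem sumD : ∑ v : W a p L M, D L v = p * 2 ^ (L + 1) := by
  rw [Fintype.sum_sum_type]
  simp [D]

end Special

end Pool.Agent.H.MP_74a576_co
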